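import Pool.Agent.W558.WD.Stms

set_option autoImplicit false

universe u

/-! WILD-QS: restriction to the strict transform. -/

namespace Pool.Agent.W52.WD

open Pool.Agent.W558

section

variable {k E : Type u} [Field k] [Field E] [Algebra k E] {O O' : Subalgebra k E} {x y : E}

/-- the constant term of a polynomial in `s` -/
theorem adj_split (s : E) : ∀ e ∈ adj O s, ∃ e0 ∈ O, ∃ e' ∈ adj O s, e = e0 + s * e' := by
  refine adj_induction O s (p := fun e => ∃ e0 ∈ O, ∃ e' ∈ adj O s, e = e0 + s * e') ?_ ?_ ?_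
  · intro a ha
    exact ⟨a, ha, 0, (adj O s).zero_mem, by rw [mul_zero, add_zero]⟩
  · rintro a b ⟨a0, ha0, a', ha', h1⟩ ⟨b0, hb0, b', hb', h2⟩
    exact ⟨a0 + b0, O.add_mem ha0 hb0, a' + b', (adj O s).add_mem ha' hb', by rw [h1, h2]; ring⟩
  · rintro a ⟨a0, ha0, a', ha', h1⟩
    refine ⟨0, O.zero_mem, a, ?_, by ring⟩
    rw [h1]
    exact (adj O s).add_mem (le_adj O s ha0) ((adj O s).mul_mem (self_mem_adj O s) ha')

theorem adj_den (hx : x ∈ O) (hy : y ∈ O) (hy0 : y ≠ 0) :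
    ∀ e ∈ adj O (x / y), ∃ l : ℕ, y ^ l * e ∈ O := by
  refine adj_induction O (x / y) (p := fun e => ∃ l : ℕ, y ^ l * e ∈ O) ?_ ?_ ?_
  · intro a ha
    exact ⟨0, by simpa using ha⟩
  · rintro a b ⟨n, hn⟩ ⟨m, hm⟩
    refine ⟨n + m, ?_⟩
    have : y ^ (n + m) * (a + b) = y ^ m * (y ^ n * a) + y ^ n * (y ^ m * b) := by ring
    rw [this]
    exact O.add_mem (O.mul_mem (O.pow_mem hy m) hn) (O.mul_mem (O.pow_mem hy n) hm)
  · rintro a ⟨n, hn⟩
    refine ⟨n + 1, ?_⟩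
    have : y ^ (n + 1) * (a * (x / y)) = y ^ n * a * x := by
      rw [pow_succ]
      field_simp
    rw [this]
    exact O.mul_mem hn hx

theorem BB_le (hP : Par O x y) : BB O y ≤ adj O (x / y) := by
  unfold BB
  rw [Algebra.adjoin_le_iff]
  rintro e (he | ⟨w, hw, rfl⟩)
  · exact le_adj O _ he
  · obtain ⟨α, hα, β, hβ, h⟩ := hP.gen w hw
    have hy0 := hP.v0
    have : w * y⁻¹ = α * (x / y) + β := by
      rw [h]
      field_simp
    rw [this]
    exact (adj O (x / y)).add_mem ((adj O (x / y)).mul_mem (le_adj O _ hα) (self_mem_adj O _))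
      (le_adj O _ hβ)

theorem reg_pow (hP : Par O x y) : ∀ (n : ℕ) (w : E), w ∈ O → (∃ c ∈ O, y ^ n * w = x * c) →
    ∃ d ∈ O, w = x * d := by
  intro n
  induction n with
  | zero =>
    rintro w _ ⟨c, hc, h⟩
    exact ⟨c, hc, by rw [← h, pow_zero, one_mul]⟩
  | succ n ih =>
    rintro w hw ⟨c, hc, h⟩
    have h1 : x * c = y * (y ^ n * w) := by rw [← h]; ring
    obtain ⟨d, hd, h2⟩ := hP.reg c hc _ (O.mul_mem (O.pow_mem hP.pv.mem n) hw) h1
    exact ih w hw ⟨d, hd, h2⟩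

end

theorem main : WD_qs.{u} := by
  intro k E _ _ _ _ _ O O' x y _ _ hP hQ hP' z hz j hz'
  obtain ⟨α, hα, β, hβ, hzz⟩ := hz'
  have hy0 := hP.v0
  set s : E := x / y with hs
  have hBB := BB_le hP
  obtain ⟨a1, ha1, b1, hb1, hb10, hb1i, hα1⟩ := hQ.frac α hα
  obtain ⟨a2, ha2, b2, hb2, hb20, hb2i, hβ1⟩ := hQ.frac β hβ
  replace ha1 := hBB ha1
  replace ha2 := hBB ha2
  replace hb1 := hBB hb1
  replace hb2 := hBB hb2
  have hb : b1 * b2 ∈ adj O s := (adj O s).mul_mem hb1 hb2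
  have hA : a1 * b2 ∈ adj O s := (adj O s).mul_mem ha1 hb2
  have hB : a2 * b1 ∈ adj O s := (adj O s).mul_mem ha2 hb1
  have hadj : adj O s ≤ O' := adj_le hQ.le (hP'.pv.mem)
  have hrel : z * (b1 * b2) = s * (a1 * b2) + y ^ j * (a2 * b1) := by
    rw [hzz, hα1, hβ1]
    field_simp
  obtain ⟨c0, hc0, c', hc', hc⟩ := adj_split s _ hb
  obtain ⟨B0, hB0, B', hB', hBB'⟩ := adj_split s _ hB
  have hc0u : ¬ NU O c0 := by
    intro h
    have h1 := hQ.nu c0 h
    have h2 : NU O' (s * c') := hP'.pv.mul_right (hadj hc')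
    have h3 := hQ.loc _ _ h1 h2
    rw [← hc] at h3
    refine not_NU_of_inv (mul_ne_zero hb10 hb20) ?_ h3
    rw [mul_inv]
    exact O'.mul_mem hb1i hb2i
  obtain ⟨hc00, hc0i⟩ := (not_NU_iff hc0).1 hc0u
  have hw : z * c0 - y ^ j * B0 ∈ O :=
    O.sub_mem (O.mul_mem hz hc0) (O.mul_mem (O.pow_mem hP.pv.mem j) hB0)
  have hA' : a1 * b2 + y ^ j * B' - z * c' ∈ adj O s :=
    (adj O s).sub_mem ((adj O s).add_mem hA ((adj O s).mul_mem
      (le_adj O s (O.pow_mem hP.pv.mem j)) hB')) ((adj O s).mul_mem (le_adj O s hz) hc')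
  have hw2 : z * c0 - y ^ j * B0 = s * (a1 * b2 + y ^ j * B' - z * c') := by
    rw [hc, hBB'] at hrel
    linear_combination hrel
  obtain ⟨l, hl⟩ := adj_den hP.pu.mem hP.pv.mem hy0 _ hA'
  obtain ⟨d, hd, hd2⟩ := reg_pow hP (l + 1) _ hw ⟨_, hl, by
    rw [hw2, pow_succ, hs]
    field_simp⟩
  refine ⟨d * c0⁻¹, O.mul_mem hd hc0i, B0 * c0⁻¹, O.mul_mem hB0 hc0i, ?_⟩
  have : z * c0 = y ^ j * B0 + x * d := by linear_combination hd2
  field_simp
  linear_combination this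

end Pool.Agent.W52.WD
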