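import Pool.Agent.W558.WD.Stms

set_option autoImplicit false
set_option linter.unusedVariables false
set_option linter.unusedSectionVars false

universe u

/-! WILD-TBL: the blowup of the intersection of two components of the boundary. -/

namespace Pool.Agent.W52.WD

open Pool.Agent.W558

section

variable {k N : Type u} [Field k] [Field N] [Algebra k N]

theorem snc_reindex {A : Subalgebra k N} {I J : Type} {x : I → N} (h : SNC A x) (σ : J → I)
    (hσ : Function.Injective σ) : SNC A (fun j => x (σ j)) := by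
  intro κ _ _ φ i hi hφ
  obtain ⟨D, hD, hD'⟩ := h κ φ (σ i) hi hφ
  exact ⟨D, hD, fun j hj hne hφj => hD' (σ j) hj (fun e => hne (hσ e)) hφj⟩

/-- swap the first two indices -/
def sw {I : Type} : Option (Option I) → Option (Option I)
  | none => some none
  | some none => none
  | some (some l) => some (some l)

theorem sw_inj {I : Type} : Function.Injective (sw : Option (Option I) → _) := by
  rintro (_ | _ | a) (_ | _ | b) h
  · rfl
  · simp [sw] at h
  · simp [sw] at h
  · simp [sw] at h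
  · rfl
  · simp [sw] at h
  · simp [sw] at h
  · simp [sw] at h
  · exact h

variable {T I : Type} [Fintype I] [DecidableEq I] (M : LM (⊥ : Subalgebra k N) ⊤ T I) {i j : I}

theorem snc_aux (hij : i ≠ j) (q : T × Bool) (y : N) (hy : y ∈ M.A q.1) (hy0 : y ≠ 0)
    (h : SNC (M.A q.1) (ox y (M.x q.1))) : SNC (bA M i j q) (ox y (bX M i j q)) := by
  have := M.sm q.1
  have hx : ∀ o, ox y (M.x q.1) o ∈ M.A q.1 := by
    rintro (_ | l)
    · exact hy
    · exact M.xA _ _
  have hx0 : ∀ o, ox y (M.x q.1) o ≠ 0 := by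
    rintro (_ | l)
    · exact hy0
    · exact M.x0 _ _
  have hne : (some (nu i j q.2) : Option I) ≠ some (de i j q.2) := fun e =>
    nu_ne_de i j hij q.2 (Option.some.inj e)
  have h1 := h.blow hx hx0 hne
  have h2 := snc_reindex h1 sw sw_inj
  have h3 : (fun o => bx (ox y (M.x q.1)) (some (nu i j q.2)) (some (de i j q.2)) (sw o)) =
      ox y (bX M i j q) := by
    funext o
    rcases o with _ | _ | l
    · simp [sw, bx, ox]
    · simp [sw, bx, ox, bX]
    · simp [sw, bx, ox, bX]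
  rw [h3] at h2
  exact h2

theorem ln_aux (hij : i ≠ j) (q : T × Bool) (y h : N) (hy : y ∈ M.A q.1) (hh : h ∈ M.A q.1)
    (c : I → ℤ)
    (κ : Type u) [Field κ] [Algebra k κ] (A' : Subalgebra k N) (X' : Option I → N)
    (hA' : A' = bA M i j q) (hX' : X' = bX M i j q) (φ : A' →ₐ[k] κ) (hh' : h ∈ A')
    (hln : ∀ (κ : Type u) [Field κ] [Algebra k κ] (φ : M.A q.1 →ₐ[k] κ),
      ∃ v : LT φ (ox y (M.x q.1)), om v (fun o => o.elim 0 c) hh ≠ 0) :
    ∃ v : LT φ (ox y X'), om v (fun o => o.elim 0 (fun o => o.elim (c i + c j) c)) hh' ≠ 0 := by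
  subst hA' hX'
  have := M.sm q.1
  set a : I := nu i j q.2 with ha
  set b : I := de i j q.2 with hb
  have hab : a ≠ b := nu_ne_de i j hij q.2
  have hle := le_bA M i j q
  let φ0 : M.A q.1 →ₐ[k] κ := φ.comp (Subalgebra.inclusion hle)
  obtain ⟨v, hv⟩ := hln κ φ0
  have hφ0 : ∀ (z : N) (hz : z ∈ M.A q.1) (hz' : z ∈ bA M i j q), φ ⟨z, hz'⟩ = φ0 ⟨z, hz⟩ :=
    fun z hz hz' => rfl
  have hyx : ((⟨M.x q.1 b, M.xA _ _⟩ : M.A q.1) : N) ≠ 0 := M.x0 _ _
  have hT : Trans (M.A q.1) (⟨M.x q.1 a, M.xA _ _⟩ : M.A q.1) ⟨M.x q.1 b, M.xA _ _⟩ :=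
    (M.snc q.1).trans hab _ _
  have hvm : M.x q.1 a / M.x q.1 b ∈ bA M i j q := vv_mem M i j q
  have hDa := v.hx (some a) (M.xA _ _)
  have hDb := v.hx (some b) (M.xA _ _)
  change v.D.D ⟨M.x q.1 a, M.xA _ _⟩ = φ0 ⟨M.x q.1 a, M.xA _ _⟩ * v.e (some a) at hDa
  change v.D.D ⟨M.x q.1 b, M.xA _ _⟩ = φ0 ⟨M.x q.1 b, M.xA _ _⟩ * v.e (some b) at hDb
  have hrel : φ0 ⟨M.x q.1 b, M.xA _ _⟩ * φ ⟨M.x q.1 a / M.x q.1 b, hvm⟩ =
      φ0 ⟨M.x q.1 a, M.xA _ _⟩ := by
    rw [← hφ0 _ _ (hle (M.xA _ _)), ← hφ0 _ _ (hle (M.xA _ _)), ← map_mul]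
    congr 1
    apply Subtype.ext
    change M.x q.1 b * (M.x q.1 a / M.x q.1 b) = M.x q.1 a
    have := M.x0 q.1 b
    field_simp
  obtain ⟨E, hE1, hE2⟩ : ∃ E : TV φ, (∀ z : M.A q.1, E.D ⟨z, hle z.2⟩ = v.D.D z) ∧
      E.D ⟨M.x q.1 a / M.x q.1 b, hvm⟩ =
        φ ⟨M.x q.1 a / M.x q.1 b, hvm⟩ * (v.e (some a) - v.e (some b)) :=
    TV.ext_adj (A := M.A q.1) hyx hT φ φ0 (fun _ => rfl) v.D
    (φ ⟨M.x q.1 a / M.x q.1 b, hvm⟩ * (v.e (some a) - v.e (some b))) (by
      change φ0 ⟨M.x q.1 b, M.xA _ _⟩ * (φ ⟨M.x q.1 a / M.x q.1 b, hvm⟩ *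
        (v.e (some a) - v.e (some b))) + φ ⟨M.x q.1 a / M.x q.1 b, hvm⟩ *
        v.D.D ⟨M.x q.1 b, M.xA _ _⟩ = v.D.D ⟨M.x q.1 a, M.xA _ _⟩
      rw [hDa, hDb, ← hrel]
      ring)
  have hE1' : ∀ (z : N) (hz : z ∈ M.A q.1) (hz' : z ∈ bA M i j q), E.D ⟨z, hz'⟩ =
      v.D.D ⟨z, hz⟩ := fun z hz hz' => hE1 ⟨z, hz⟩
  let e' : Option (Option I) → κ
    | none => v.e none
    | some none => v.e (some b)
    | some (some l) => if l = a then v.e (some a) - v.e (some b) else
        if l = b then 0 else v.e (some l)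
  refine ⟨⟨E, e', ?_⟩, ?_⟩
  · rintro (_ | _ | l) ho
    · exact (hE1' y hy ho).trans (v.hx none hy)
    · exact (hE1' (M.x q.1 b) (M.xA _ _) ho).trans hDb
    · change E.D ⟨bX M i j q (some l), ho⟩ = φ ⟨bX M i j q (some l), ho⟩ * (if l = a then
        v.e (some a) - v.e (some b) else if l = b then 0 else v.e (some l))
      simp only [bX, bx] at ho ⊢
      split_ifs at ho ⊢ with h1 h2
      · exact hE2
      · rw [mul_zero]
        exact E.D_one
      · rw [hE1' _ (M.xA _ _), hφ0 _ (M.xA _ _)]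
        exact v.hx (some l) (M.xA _ _)
  · have hsum : ∑ o : Option (Option I), (((fun o : Option (Option I) =>
        (o.elim 0 (fun o => o.elim (c i + c j) c) : ℤ)) o : ℤ) : κ) * e' o =
        ∑ o : Option I, (((fun o : Option I => (o.elim 0 c : ℤ)) o : ℤ) : κ) * v.e o := by
      rw [Fintype.sum_option, Fintype.sum_option, Fintype.sum_option]
      change ((0 : ℤ) : κ) * v.e none + (((c i + c j : ℤ) : κ) * v.e (some b) +
        ∑ l, (c l : κ) * (if l = a then v.e (some a) - v.e (some b) else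
        if l = b then 0 else v.e (some l))) = ((0 : ℤ) : κ) * v.e none +
        ∑ l, (c l : κ) * v.e (some l)
      have h1 : ∀ l, (c l : κ) * (if l = a then v.e (some a) - v.e (some b) else
          if l = b then 0 else v.e (some l)) = (c l : κ) * v.e (some l) -
          (if l = a then (c l : κ) * v.e (some b) else 0) -
          (if l = b then (c l : κ) * v.e (some b) else 0) := by
        intro l
        by_cases h1 : l = a
        · subst h1
          rw [if_pos rfl, if_pos rfl, if_neg hab]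
          ring
        · by_cases h2 : l = b
          · subst h2
            rw [if_neg h1, if_pos rfl, if_neg h1, if_pos rfl]
            ring
          · rw [if_neg h1, if_neg h2, if_neg h1, if_neg h2]
            ring
      simp only [h1, Finset.sum_sub_distrib, Finset.sum_ite_eq', Finset.mem_univ, if_true]
      have h2 : (c a : κ) + (c b : κ) = (c i : κ) + (c j : κ) := by
        rcases q with ⟨t, b'⟩
        cases b'
        · change (c j : κ) + (c i : κ) = _
          ring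
        · rfl
      push_cast
      linear_combination (- v.e (some b)) * h2
    intro h0
    apply hv
    unfold om at h0 ⊢
    rw [hsum] at h0
    rw [← hE1' h hh hh', ← hφ0 h hh hh']
    exact h0

end

theorem tbl : WD_tbl.{u} := by
  intro p _ k N _ _ _ _ T I G _ _ _ M F Q y h c μ g Γ hPS hLq hFn i j hij
  obtain ⟨M', hA, hx, hH⟩ := exists_blowup M hij
  have hA' : ∀ q, M'.A q = bA M i j q := fun q => congrFun hA q
  have hx' : ∀ q, M'.x q = bX M i j q := fun q => congrFun hx q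
  have hle : ∀ q : T × Bool, M.A q.1 ≤ M'.A q := fun q => by
    rw [hA']; exact le_bA M i j q
  have hxl : ∀ (q : T × Bool) (l : I), M.x q.1 l = M'.x q (some l) *
      (if l = i ∨ l = j then M'.x q none else 1) := fun q l => by
    rw [hx']; exact x_eq_bX M hij q l
  have hcm : ∀ (q : T × Bool) (l : I), (if l = i ∨ l = j then M'.x q none else 1) ∈ M'.A q := by
    intro q l
    split_ifs
    · exact M'.xA _ _
    · exact (M'.A q).one_mem
  have hce : (fun o : Option I => (o.elim (c i + c j) c : ℤ)) = bΓ i j c := by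
    funext o
    cases o <;> rfl
  obtain ⟨hs1, hs2, hs3, hs4⟩ := sep_blowup M hij M' hA hx
  refine ⟨M', fun q => y q.1, fun q => h q.1, bΓ i j μ, fun a => bΓ i j (Γ a), ?_, ?_,
    (ext_blowup M hij g Γ M' hA hx hH).fn hFn, hs1, hs2, hs3, hs4, ?_, ?_⟩
  · refine ⟨fun q => hle q (hPS.yA q.1), fun q => hPS.y0 q.1, fun q => hle q (hPS.hA q.1), ?_, ?_,
      fun q => hPS.yQ q.1, ?_, ?_, ?_⟩
    · intro q
      rw [hA']
      refine adj_le (hPS.AQ q.1) ?_
      unfold vv
      rw [div_eq_mul_inv]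
      exact Q.mul_mem (hPS.AQ q.1 (M.xA _ _)) (hPS.xQ _ _)
    · intro q o
      rw [hx']
      rcases o with _ | l
      · exact hPS.xQ _ _
      · simp only [bX, bx]
        split_ifs
        · rw [inv_div, div_eq_mul_inv]
          exact Q.mul_mem (hPS.AQ q.1 (M.xA _ _)) (hPS.xQ _ _)
        · rw [inv_one]
          exact Q.one_mem
        · exact hPS.xQ _ _
    · intro q
      have h1 := hPS.eq q.1
      rw [prod_bX M hij q, prod_bX M hij q] at h1
      have h2 : bΓ i j (fun l => (p : ℤ) * μ l) = fun o => (p : ℤ) * bΓ i j μ o := by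
        funext o
        cases o with
        | none =>
          change (p : ℤ) * μ i + (p : ℤ) * μ j = (p : ℤ) * (μ i + μ j)
          ring
        | some l => rfl
      rw [h2, ← hce] at h1
      rw [hx']
      exact h1
    · intro q
      rw [hA', hx']
      exact snc_aux M hij q (y q.1) (hPS.yA q.1) (hPS.y0 q.1) (hPS.snc q.1)
    · intro q κ _ _ φ
      exact ln_aux M hij q (y q.1) (h q.1) (hPS.yA q.1) (hPS.hA q.1) c κ (M'.A q) (M'.x q) (hA' q)
        (hx' q) φ (hle q (hPS.hA q.1)) (fun κ _ _ φ => hPS.ln q.1 κ φ)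
  · intro q z hz
    obtain ⟨α, hα, β, hβ, h1⟩ := hLq q.1 z hz
    exact ⟨α, hle q hα, β, hle q hβ, h1⟩
  · intro l hl q
    obtain ⟨α, hα, β, hβ, h1⟩ := hl q.1
    refine ⟨α * (if l = i ∨ l = j then M'.x q none else 1),
      (M'.A q).mul_mem (hle q hα) (hcm q l), β, hle q hβ, ?_⟩
    rw [hxl q l] at h1
    linear_combination h1
  · intro hl q
    obtain ⟨α, hα, β, hβ, h1⟩ := hl q.1
    refine ⟨α * M'.x q (some i), (M'.A q).mul_mem (hle q hα) (M'.xA _ _), β, hle q hβ, ?_⟩
    have h2 := hxl q i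
    rw [if_pos (Or.inl rfl)] at h2
    rw [← h1, h2]
    ring

end Pool.Agent.W52.WD
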